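import Pool.Agent.Helper20.NS5.Goals

set_option autoImplicit false

namespace Pool.Agent.Helper91.NS5

open Finset Pool.Agent.Helper20.NS5

open Classical in
/-- The indicator of the last answer. -/
noncomputable def Phi (G : List Bool → Prop) : ℕ → List Bool → ℝ
  | 0, u => if G u then 1 else 0
  | i + 1, u => if G u then Phi G i (u ++ [true]) else Phi G i (u ++ [false])

open Classical in
theorem phi_ans (G : List Bool → Prop) (i : ℕ) : ∀ j : ℕ,
    Phi G i (ans G j) = if G (ans G (j + i)) then 1 else 0 := by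
  induction i with
  | zero => intro j; simp [Phi]
  | succ i ih =>
    intro j
    have h1 : ans G (j + 1) = ans G j ++ [decide (G (ans G j))] := rfl
    have h2 := ih (j + 1)
    have e : j + (i + 1) = j + 1 + i := by ring
    rw [e, ← h2, h1]
    by_cases h : G (ans G j)
    · simp [Phi, h]
    · simp [Phi, h]

open Classical in
theorem key (Z : Finset ℕ) (s : ℕ → ℝ) (G : ℕ → List Bool → Prop) (X : ℝ) (i₀ : ℕ)
    (hyp : ∀ b : List Bool, b.length = i₀ → ∀ J : Finset ℕ, J ⊆ range i₀ →
      |∑ z ∈ Z.filter (fun z => G z b ∧ ∀ t ∈ J, G z (b.take t)), s z| ≤ X) (i : ℕ) :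
    ∀ j : ℕ, j + i = i₀ → ∀ u : List Bool, u.length = j → ∀ J : Finset ℕ, J ⊆ range j →
      |∑ z ∈ Z, (if ∀ t ∈ J, G z (u.take t) then 1 else 0) * s z * Phi (G z) i u| ≤ 3 ^ i * X := by
  induction i with
  | zero =>
    intro j hj u hu J hJ
    have hj' : j = i₀ := by omega
    subst hj'
    have h1 := hyp u hu J hJ
    rw [Finset.sum_filter] at h1
    have h2 : ∑ z ∈ Z, (if ∀ t ∈ J, G z (u.take t) then 1 else 0) * s z * Phi (G z) 0 u =
        ∑ z ∈ Z, if G z u ∧ ∀ t ∈ J, G z (u.take t) then s z else 0 := by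
      apply Finset.sum_congr rfl
      intro z _
      by_cases a : ∀ t ∈ J, G z (u.take t)
      · by_cases b : G z u
        · rw [if_pos a, if_pos ⟨b, a⟩]; simp [Phi, b]
        · rw [if_pos a, if_neg (fun h => b h.1)]; simp [Phi, b]
      · rw [if_neg a, if_neg (fun h => a h.2)]; simp
    rw [h2, pow_zero, one_mul]
    exact h1
  | succ i ih =>
    intro j hj u hu J hJ
    have hjJ : j ∉ J := fun h => by
      have := Finset.mem_range.1 (hJ h)
      omega
    have hsub : insert j J ⊆ range (j + 1) := by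
      intro t ht
      rcases Finset.mem_insert.1 ht with rfl | h
      · exact Finset.mem_range.2 (Nat.lt_succ_self _)
      · exact Finset.mem_range.2 ((Finset.mem_range.1 (hJ h)).trans (Nat.lt_succ_self _))
    have hsub2 : J ⊆ range (j + 1) := fun t ht => hsub (Finset.mem_insert_of_mem ht)
    have tk : ∀ (x : Bool) (t : ℕ), t ≤ j → (u ++ [x]).take t = u.take t := by
      intro x t ht
      exact List.take_append_of_le_length (by omega)
    have tkj : ∀ x : Bool, (u ++ [x]).take j = u := by
      intro x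
      rw [tk x j le_rfl, ← hu, List.take_length]
    have c1 : ∀ (x : Bool) (z : ℕ), (∀ t ∈ J, G z ((u ++ [x]).take t)) ↔
        ∀ t ∈ J, G z (u.take t) := by
      intro x z
      refine forall₂_congr fun t ht => ?_
      rw [tk x t (Finset.mem_range.1 (hJ ht)).le]
    have c2 : ∀ (x : Bool) (z : ℕ), (∀ t ∈ insert j J, G z ((u ++ [x]).take t)) ↔
        (G z u ∧ ∀ t ∈ J, G z (u.take t)) := by
      intro x z
      rw [Finset.forall_mem_insert, tkj x, c1 x z]
    have i1 := ih (j + 1) (by omega) (u ++ [true]) (by simp [hu]) (insert j J) hsub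
    have i2 := ih (j + 1) (by omega) (u ++ [false]) (by simp [hu]) J hsub2
    have i3 := ih (j + 1) (by omega) (u ++ [false]) (by simp [hu]) (insert j J) hsub
    have e : ∑ z ∈ Z, (if ∀ t ∈ J, G z (u.take t) then 1 else 0) * s z * Phi (G z) (i + 1) u =
        ∑ z ∈ Z, (if ∀ t ∈ insert j J, G z ((u ++ [true]).take t) then 1 else 0) * s z *
            Phi (G z) i (u ++ [true]) +
          ∑ z ∈ Z, (if ∀ t ∈ J, G z ((u ++ [false]).take t) then 1 else 0) * s z *
            Phi (G z) i (u ++ [false]) -
          ∑ z ∈ Z, (if ∀ t ∈ insert j J, G z ((u ++ [false]).take t) then 1 else 0) * s z *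
            Phi (G z) i (u ++ [false]) := by
      rw [← Finset.sum_add_distrib, ← Finset.sum_sub_distrib]
      apply Finset.sum_congr rfl
      intro z _
      simp only [c1, c2]
      by_cases a : ∀ t ∈ J, G z (u.take t)
      · by_cases b : G z u
        · rw [if_pos a, if_pos ⟨b, a⟩]
          have : Phi (G z) (i + 1) u = Phi (G z) i (u ++ [true]) := by simp [Phi, b]
          rw [this]; ring
        · rw [if_pos a, if_neg (fun h => b h.1)]
          have : Phi (G z) (i + 1) u = Phi (G z) i (u ++ [false]) := by simp [Phi, b]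
          rw [this]; ring
      · rw [if_neg a, if_neg (fun h => a h.2)]; ring
    rw [e]
    have p : (3 : ℝ) ^ (i + 1) * X = 3 ^ i * X + 3 ^ i * X + 3 ^ i * X := by ring
    rw [p]
    exact (abs_sub _ _).trans (add_le_add ((abs_add_le _ _).trans (add_le_add i1 i2)) i3)

/-- EXP. -/
theorem exp : EXP_stmt := by
  classical
  intro Z s G X i hyp
  have h := key Z s G X i hyp i 0 (by omega) [] rfl ∅ (by simp)
  have e : ∑ z ∈ Z, (if ∀ t ∈ (∅ : Finset ℕ), G z (([] : List Bool).take t) then (1 : ℝ) else 0) *
      s z * Phi (G z) i [] = ∑ z ∈ Z.filter (fun z => G z (ans (G z) i)), s z := by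
    rw [Finset.sum_filter]
    apply Finset.sum_congr rfl
    intro z _
    have h1 := phi_ans (G z) i 0
    have h2 : ans (G z) 0 = [] := rfl
    rw [h2, Nat.zero_add] at h1
    rw [h1]
    by_cases b : G z (ans (G z) i)
    · simp [b]
    · simp [b]
  rw [e] at h
  exact h

end Pool.Agent.Helper91.NS5
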